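import Mathlib
import Pool.Agent.Helper34.KreinMore

set_option autoImplicit false

open MeasureTheory

namespace Pool.Agent.Results.MP_f4ec25_an.NormPres

/-- The symmetric open interval `(-A, A)`, for `A` in `(0, ∞]`. -/
def band (A : ENNReal) : Set ℝ := {x : ℝ | ENNReal.ofReal |x| < A}

/-- Value at `t` of the almost periodic polynomial `∑ c_x e^{i x t}` (finite sum). -/
noncomputable def apEval (c : ℝ →₀ ℂ) (t : ℝ) : ℂ :=
  ∑ x ∈ c.support, c x * Complex.exp (Complex.I * (x : ℂ) * (t : ℂ))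

/-- The functional `Φ_f`, sending `∑ c_x e_x` to `∑ c_x f(x)`. -/
noncomputable def functional (f : ℝ → ℂ) (c : ℝ →₀ ℂ) : ℂ :=
  ∑ x ∈ c.support, c x * f x

/-- `C` bounds the functional `Φ_f` on almost periodic polynomials with exponents in `(-A, A)`. -/
def IsBound (A : ENNReal) (f : ℝ → ℂ) (C : ℝ) : Prop :=
  0 ≤ C ∧ ∀ c : ℝ →₀ ℂ, (∀ x ∈ c.support, x ∈ band A) →
    ∀ M : ℝ, (∀ t : ℝ, ‖apEval c t‖ ≤ M) → ‖functional f c‖ ≤ C * M

/-- `f` restricted to `(-A, A)` belongs to `R_A`. -/
def MemR (A : ENNReal) (f : ℝ → ℂ) : Prop := ∃ C : ℝ, IsBound A f C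

/-- The norm of `f` in `R_A`: the operator norm of `Φ_f`, the least bound. -/
noncomputable def normR (A : ENNReal) (f : ℝ → ℂ) : ℝ := sInf {C : ℝ | IsBound A f C}

/-- Sanity: `(-A, A)` is the usual interval for finite `A` and the line for `A = ∞`. -/
lemma band_ofReal (A : ℝ) : band (ENNReal.ofReal A) = Set.Ioo (-A) A := by
  ext x
  simp only [band, Set.mem_ofPred_eq, Set.mem_Ioo]
  rw [ENNReal.ofReal_lt_ofReal_iff', abs_lt]
  constructor
  · rintro ⟨h, -⟩
    exact h
  · intro h
    exact ⟨h, by linarith [h.1, h.2]⟩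

lemma band_top : band ⊤ = Set.univ := by
  ext x
  simp [band]

lemma isOpen_band (A : ENNReal) : IsOpen (band A) := by
  have h : Continuous fun x : ℝ => ENNReal.ofReal |x| :=
    ENNReal.continuous_ofReal.comp continuous_abs
  exact isOpen_lt h continuous_const

lemma bddBelow_bounds (A : ENNReal) (f : ℝ → ℂ) : BddBelow {C : ℝ | IsBound A f C} :=
  ⟨0, fun _ hC => hC.1⟩

/-- The least bound is a bound: the norm is attained. -/
lemma isBound_normR {A : ENNReal} {f : ℝ → ℂ} (hf : MemR A f) : IsBound A f (normR A f) := by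
  have hne : {C : ℝ | IsBound A f C}.Nonempty := hf
  refine ⟨le_csInf hne fun _ hC => hC.1, fun c hc M hM => ?_⟩
  have hM0 : 0 ≤ M := (norm_nonneg _).trans (hM 0)
  rcases hM0.eq_or_lt with hM0 | hM0
  · obtain ⟨C, hC⟩ := hf
    have := hC.2 c hc M hM
    rw [← hM0, mul_zero] at this ⊢
    exact this
  · rw [← div_le_iff₀ hM0]
    refine le_csInf hne fun C hC => ?_
    rw [div_le_iff₀ hM0]
    exact hC.2 c hc M hM

open Pool.Agent.Helper34.Krein in
/-- Every measurable `f` in `R_A` has a measurable extension to the line of the same norm. -/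
theorem result (A : ENNReal) (_ : 0 < A) (_ : A < ⊤) (f : ℝ → ℂ) (hf : MemR A f)
    (hfm : AEMeasurable f (volume.restrict (band A))) :
    ∃ g : ℝ → ℂ, (∀ x ∈ band A, g x = f x) ∧ AEMeasurable g volume ∧ MemR ⊤ g ∧
      normR ⊤ g = normR A f := by
  have hC := isBound_normR hf
  set C := normR A f with hCdef
  obtain ⟨H, i1, i2, i3, π, u, v, hπ, hb, hu, hv, hrep⟩ := exists_rep (band A) f C (by
      intro h hh M hM
      rw [Phi_apply]
      refine hC.2 h ?_ M ?_
      · intro x hx
        exact (Finsupp.mem_supported ℂ h).1 hh hx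
      · intro t
        have := hM t
        rw [ap_apply] at this
        exact this)
  have hF : AEStronglyMeasurable (fun l : ℝ => inner ℂ v (π l u)) (volume.restrict (band A)) := by
    refine hfm.aestronglyMeasurable.congr ?_
    filter_upwards [self_mem_ae_restrict (isOpen_band A).measurableSet] with x hx
    exact hrep x hx
  obtain ⟨uc, u0, u2, hsum, hc, h0, hnorm, hz⟩ := hπ.decomposition u v (isOpen_band A) hF
  have hgf : ∀ x ∈ band A, inner ℂ v (π x (uc + u0)) = f x := by
    intro x hx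
    rw [hrep x hx, hsum, map_add (π x) (uc + u0) u2, inner_add_right, hz x hx, add_zero]
  have hle : ‖v‖ * ‖uc + u0‖ ≤ C := by
    have h1 : ‖uc + u0‖ ^ 2 ≤ C := by nlinarith [sq_nonneg ‖u2‖]
    nlinarith [sq_nonneg (‖v‖ - ‖uc + u0‖)]
  have hbound : IsBound ⊤ (fun x => inner ℂ v (π x (uc + u0))) C := by
    refine ⟨hC.1, fun c _ M hM => ?_⟩
    have h1 := norm_Phi_coeff_le hb v (uc + u0) c M (by
      intro t
      rw [ap_apply]
      exact hM t)
    rw [Phi_apply] at h1
    have hM0 : 0 ≤ M := (norm_nonneg _).trans (hM 0)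
    exact h1.trans (by gcongr)
  refine ⟨fun x => inner ℂ v (π x (uc + u0)), hgf,
    (aestronglyMeasurable_good hc h0 v).aemeasurable, ⟨C, hbound⟩, le_antisymm ?_ ?_⟩
  · exact csInf_le (bddBelow_bounds _ _) hbound
  · refine le_csInf ⟨C, hbound⟩ fun C' hC' => ?_
    refine csInf_le (bddBelow_bounds _ _) ⟨hC'.1, fun c hcs M hM => ?_⟩
    have h1 := hC'.2 c (fun x _ => by rw [band_top]; trivial) M hM
    have h2 : functional f c = functional (fun x => inner ℂ v (π x (uc + u0))) c := by
      refine Finset.sum_congr rfl fun x hx => ?_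
      rw [← hgf x (hcs x hx)]
    rw [h2]
    exact h1

end Pool.Agent.Results.MP_f4ec25_an.NormPres
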